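import Pool.Agent.R388.CD.Main

set_option autoImplicit false

/-!
# Abelian categories with weights: definitions
-/

universe v u

open CategoryTheory CategoryTheory.Limits CategoryTheory.Abelian
open Pool.Agent.R388.CD (IsRepClass ExtVanish cohDim)

namespace Pool.Agent.R911.Wt

/-- Weights on an abelian category: classes of objects with weights at most `m` and at least `m`,
which contain `0` and are stable under subobjects, quotients and finite products. Only zero objects
have weights at most `m` and at least `m + 1`, each object has a subobject with weights at most `m`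
such that the quotient has weights at least `m + 1`, and the weights of each object are bounded. -/
structure Weights (C : Type u) [Category.{v} C] [Abelian C] where
  /-- the objects with weights at most `m` -/
  le : ℤ → ObjectProperty C
  /-- the objects with weights at least `m` -/
  ge : ℤ → ObjectProperty C
  le_class (m : ℤ) : IsRepClass (le m)
  ge_class (m : ℤ) : IsRepClass (ge m)
  le_mono (m : ℤ) (X : C) : le m X → le (m + 1) X
  ge_mono (m : ℤ) (X : C) : ge (m + 1) X → ge m X
  isZero (m : ℤ) (X : C) : le m X → ge (m + 1) X → IsZero X
  exists_seq (m : ℤ) (X : C) : ∃ (A B : C) (i : A ⟶ X) (p : X ⟶ B) (h : i ≫ p = 0),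
    (ShortComplex.mk i p h).ShortExact ∧ le m A ∧ ge (m + 1) B
  bounded (X : C) : ∃ a b : ℤ, le a X ∧ ge b X

attribute [instance] Weights.le_class Weights.ge_class

variable {C : Type u} [Category.{v} C] [Abelian C]

/-- The objects with weights between `b` and `a`. -/
def Weights.between (w : Weights C) (b a : ℤ) : ObjectProperty C := w.le a ⊓ w.ge b

/-- The object `X` is pure of weight `m`. -/
def Weights.Pure (w : Weights C) (m : ℤ) (X : C) : Prop := w.le m X ∧ w.ge m X

instance (w : Weights C) (b a : ℤ) : (w.between b a).IsClosedUnderSubobjects :=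
  ⟨fun f _ h => ⟨(w.le a).prop_of_mono f h.1, (w.ge b).prop_of_mono f h.2⟩⟩

instance (w : Weights C) (b a : ℤ) : (w.between b a).IsClosedUnderQuotients :=
  ⟨fun f _ h => ⟨(w.le a).prop_of_epi f h.1, (w.ge b).prop_of_epi f h.2⟩⟩

instance (w : Weights C) (b a : ℤ) : (w.between b a).ContainsZero :=
  inferInstanceAs (w.le a ⊓ w.ge b).ContainsZero

instance (w : Weights C) (b a : ℤ) : (w.between b a).IsClosedUnderFiniteProducts where
  isClosedUnderLimitsOfShape J _ := ⟨by
    rintro X ⟨p⟩
    exact ⟨(w.le a).prop_of_isLimit p.isLimit fun j => (p.prop_diag_obj j).1,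
      (w.ge b).prop_of_isLimit p.isLimit fun j => (p.prop_diag_obj j).2⟩⟩

instance (w : Weights C) (b a : ℤ) : IsRepClass (w.between b a) where

/-- For the class `P` of objects, which form an abelian category, the natural map from `Ext^n(X, Y)`
in this category to `Ext^n(X, Y)` in the whole category is bijective. -/
def ExtBij (P : ObjectProperty C) [IsRepClass P] (X Y : P.FullSubcategory) (n : ℕ) : Prop :=
  let _ : HasExt.{max u v} C := HasExt.standard C
  let _ : HasExt.{max u v} P.FullSubcategory := HasExt.standard P.FullSubcategory
  have := Pool.Agent.R388.CD.exactL P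
  have := Pool.Agent.R388.CD.exactR P
  Function.Bijective
    (Ext.mapExactFunctor P.ι : Ext.{max u v} X Y n → Ext.{max u v} X.obj Y.obj n)

/-- `Ext^n(X, Y) = 0` for `X` and `Y` in the abelian category of the objects in the class `P`, where
`Ext` is computed in this category. -/
def ExtVanishIn (P : ObjectProperty C) [IsRepClass P] {X Y : C} (hX : P X) (hY : P Y) (n : ℕ) :
    Prop :=
  ExtVanish (C := P.FullSubcategory) ⟨X, hX⟩ ⟨Y, hY⟩ n

end Pool.Agent.R911.Wt
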