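import Pool.Agent.R388.CD.Main

set_option autoImplicit false
set_option linter.unusedSectionVars false

/-!
# Exact embeddings of abelian categories which induce isomorphisms on `Ext`
-/

universe w w' w'' v v' v'' u u' u''

open CategoryTheory CategoryTheory.Limits CategoryTheory.Abelian
open Pool.Agent.R388.CD (exists_epi_comp_eq_zero exists_extClass_comp)

namespace Pool.Agent.R911.Wt

section Mono

variable {C : Type u} [Category.{v} C] [Abelian C] [HasExt.{w} C]

/-- Every class in `Ext^{n+1}(X, Y)` is killed by a monomorphism `Y → E`. -/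
theorem exists_mono_comp_eq_zero {n : ℕ} : ∀ {X Y : C} (e : Ext.{w} X Y (n + 1)),
    ∃ (E : C) (i : Y ⟶ E), Mono i ∧ e.comp (Ext.mk₀ i) (add_zero (n + 1)) = 0 := by
  induction n with
  | zero =>
    intro X Y e
    obtain ⟨K, E, f, p, h0, hS, e', he⟩ := exists_extClass_comp e
    obtain ⟨g, rfl⟩ := (Ext.mk₀_bijective K Y).2 e'
    have : Mono f := hS.mono_f
    refine ⟨pushout f g, pushout.inr f g, inferInstance, ?_⟩
    rw [← he]
    refine (Ext.comp_assoc_of_third_deg_zero _ _ _ _).trans ?_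
    have h1 : (Ext.mk₀ g).comp (Ext.mk₀ (pushout.inr f g)) (add_zero 0) =
        (Ext.mk₀ f).comp (Ext.mk₀ (pushout.inl f g)) (add_zero 0) :=
      (Ext.mk₀_comp_mk₀ _ _).trans ((congrArg Ext.mk₀ pushout.condition.symm).trans
        (Ext.mk₀_comp_mk₀ _ _).symm)
    rw [h1]
    refine (Ext.comp_assoc_of_third_deg_zero _ _ _ _).symm.trans ?_
    have h2 : hS.extClass.comp (Ext.mk₀ f) (add_zero 1) = 0 := hS.extClass_comp
    rw [h2, Ext.zero_comp]
  | succ n ih =>
    intro X Y e
    obtain ⟨K, E, f, p, h0, hS, e', he⟩ := exists_extClass_comp e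
    obtain ⟨E', i, hi, h1⟩ := ih e'
    refine ⟨E', i, hi, ?_⟩
    rw [← he]
    refine (Ext.comp_assoc_of_third_deg_zero _ _ _ _).trans ?_
    rw [h1, Ext.comp_zero]

/-- Every class in `Ext^{n+1}` is a Yoneda product of a class in `Ext^n` and of the class of a short
exact sequence. -/
theorem exists_comp_extClass {X Y : C} {n : ℕ} (e : Ext.{w} X Y (n + 1)) :
    ∃ (E Q : C) (i : Y ⟶ E) (p : E ⟶ Q) (h : i ≫ p = 0)
      (hS : (ShortComplex.mk i p h).ShortExact) (e' : Ext.{w} X Q n),
      e'.comp hS.extClass rfl = e := by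
  obtain ⟨E, i, hi, h0⟩ := exists_mono_comp_eq_zero e
  have hS : (ShortComplex.mk i (cokernel.π i) (cokernel.condition i)).ShortExact :=
    { exact := ShortComplex.exact_of_g_is_cokernel _ (cokernelIsCokernel i)
      mono_f := hi
      epi_g := inferInstanceAs (Epi (cokernel.π i)) }
  obtain ⟨e', he'⟩ := Ext.covariant_sequence_exact₁ X hS e h0 rfl
  exact ⟨E, cokernel i, i, cokernel.π i, cokernel.condition i, hS, e', he'⟩

end Mono

section Eff

variable {C : Type u} [Category.{v} C] [Abelian C] [HasExt.{w} C]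
  {D : Type u'} [Category.{v'} D] [Abelian D] [HasExt.{w'} D]
  (F : D ⥤ C) [F.Additive] [PreservesFiniteLimits F] [PreservesFiniteColimits F]

/-- Each epimorphism onto an object of the subcategory is dominated by one from an object of the
subcategory. -/
def EffL : Prop := ∀ (X : D) (E : C) (p : E ⟶ F.obj X), Epi p →
  ∃ (E' : D) (i : F.obj E' ⟶ E), Epi (i ≫ p)

/-- Each monomorphism from an object of the subcategory is dominated by one to an object of the
subcategory. -/
def EffR : Prop := ∀ (Y : D) (E : C) (i : F.obj Y ⟶ E), Mono i →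
  ∃ (E' : D) (q : E ⟶ F.obj E'), Mono (i ≫ q)

variable [F.Full] [F.Faithful]

theorem surj_zero {X Y : D} (e : Ext.{w} (F.obj X) (F.obj Y) 0) :
    ∃ e' : Ext.{w'} X Y 0, e'.mapExactFunctor F = e := by
  obtain ⟨f, rfl⟩ := (Ext.mk₀_bijective _ _).2 e
  obtain ⟨g, rfl⟩ := F.map_surjective f
  exact ⟨Ext.mk₀ g, Ext.mapExactFunctor_mk₀ F g⟩

theorem inj_zero {X Y : D} (e : Ext.{w'} X Y 0) (h : e.mapExactFunctor F = (0 : Ext.{w} _ _ 0)) :
    e = 0 := by
  obtain ⟨f, rfl⟩ := (Ext.mk₀_bijective _ _).2 e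
  rw [Ext.mapExactFunctor_mk₀, Ext.mk₀_eq_zero_iff] at h
  rw [Ext.mk₀_eq_zero_iff]
  exact F.map_injective (by rw [h, F.map_zero])

theorem surj_of_effL (hE : EffL F) {n : ℕ} : ∀ {X Y : D} (e : Ext.{w} (F.obj X) (F.obj Y) n),
    ∃ e' : Ext.{w'} X Y n, e'.mapExactFunctor F = e := by
  induction n with
  | zero => exact fun e => surj_zero F e
  | succ n ih =>
    intro X Y e
    obtain ⟨E, p, hp, h0⟩ := exists_epi_comp_eq_zero e
    obtain ⟨E', i, hi⟩ := hE X E p hp
    obtain ⟨q, hq⟩ := F.map_surjective (i ≫ p)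
    have hq' : Epi (F.map q) := by rw [hq]; exact hi
    have hq1 : Epi q := F.epi_of_epi_map hq'
    have hS : (ShortComplex.mk (kernel.ι q) q (kernel.condition q)).ShortExact :=
      { exact := ShortComplex.exact_of_f_is_kernel _ (kernelIsKernel q)
        mono_f := inferInstanceAs (Mono (kernel.ι q))
        epi_g := hq1 }
    have h1 : (Ext.mk₀ (F.map q)).comp e (zero_add (n + 1)) = 0 := by
      have h2 : Ext.mk₀ (F.map q) = (Ext.mk₀ i).comp (Ext.mk₀ p) (add_zero 0) :=
        (congrArg Ext.mk₀ hq).trans (Ext.mk₀_comp_mk₀ _ _).symm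
      rw [h2]
      refine (Ext.comp_assoc_of_second_deg_zero _ _ _ _).trans ?_
      rw [h0, Ext.comp_zero]
    obtain ⟨e₁, he₁⟩ := Ext.contravariant_sequence_exact₃ (hS.map_of_exact F) (F.obj Y) e h1
      (add_comm 1 n)
    obtain ⟨e₂, rfl⟩ := ih e₁
    refine ⟨hS.extClass.comp e₂ (add_comm 1 n), ?_⟩
    rw [Ext.mapExactFunctor_comp, ← he₁]
    exact congrArg (fun t => Ext.comp t (e₂.mapExactFunctor F) (add_comm 1 n))
      (Ext.mapExactFunctor_extClass F hS)

theorem surj_of_effR (hE : EffR F) {n : ℕ} : ∀ {X Y : D} (e : Ext.{w} (F.obj X) (F.obj Y) n),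
    ∃ e' : Ext.{w'} X Y n, e'.mapExactFunctor F = e := by
  induction n with
  | zero => exact fun e => surj_zero F e
  | succ n ih =>
    intro X Y e
    obtain ⟨E, i, hi, h0⟩ := exists_mono_comp_eq_zero e
    obtain ⟨E', q, hq⟩ := hE Y E i hi
    obtain ⟨j, hj⟩ := F.map_surjective (i ≫ q)
    have hj' : Mono (F.map j) := by rw [hj]; exact hq
    have hj1 : Mono j := F.mono_of_mono_map hj'
    have hS : (ShortComplex.mk j (cokernel.π j) (cokernel.condition j)).ShortExact :=
      { exact := ShortComplex.exact_of_g_is_cokernel _ (cokernelIsCokernel j)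
        mono_f := hj1
        epi_g := inferInstanceAs (Epi (cokernel.π j)) }
    have h1 : e.comp (Ext.mk₀ (F.map j)) (add_zero (n + 1)) = 0 := by
      have h2 : Ext.mk₀ (F.map j) = (Ext.mk₀ i).comp (Ext.mk₀ q) (add_zero 0) :=
        (congrArg Ext.mk₀ hj).trans (Ext.mk₀_comp_mk₀ _ _).symm
      rw [h2]
      refine (Ext.comp_assoc_of_third_deg_zero _ _ _ _).symm.trans ?_
      rw [h0, Ext.zero_comp]
    obtain ⟨e₁, he₁⟩ := Ext.covariant_sequence_exact₁ (F.obj X) (hS.map_of_exact F) e h1 rfl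
    obtain ⟨e₂, rfl⟩ := ih e₁
    refine ⟨e₂.comp hS.extClass rfl, ?_⟩
    rw [Ext.mapExactFunctor_comp, ← he₁]
    exact congrArg (fun t => Ext.comp (e₂.mapExactFunctor F) t rfl)
      (Ext.mapExactFunctor_extClass F hS)

theorem inj_of_surj {n : ℕ} (hs : ∀ (m : ℕ) (X Y : D) (e : Ext.{w} (F.obj X) (F.obj Y) m),
    m ≤ n → ∃ e' : Ext.{w'} X Y m, e'.mapExactFunctor F = e) :
    ∀ {X Y : D} (e : Ext.{w'} X Y n), e.mapExactFunctor F = (0 : Ext.{w} _ _ n) → e = 0 := by
  induction n with
  | zero => exact fun e => inj_zero F e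
  | succ n ih =>
    intro X Y e h
    obtain ⟨K, E, f, p, h0, hS, e', rfl⟩ := exists_extClass_comp e
    have h1 : (hS.map_of_exact F).extClass.comp (e'.mapExactFunctor F) (add_comm 1 n) =
        (0 : Ext.{w} _ _ (n + 1)) := by
      refine Eq.trans ?_ h
      rw [Ext.mapExactFunctor_comp]
      exact congrArg (fun t => Ext.comp t (e'.mapExactFunctor F) (add_comm 1 n))
        (Ext.mapExactFunctor_extClass F hS).symm
    obtain ⟨g, hg⟩ := Ext.contravariant_sequence_exact₁ (hS.map_of_exact F) (F.obj Y)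
      (e'.mapExactFunctor F) (add_comm 1 n) h1
    obtain ⟨g', rfl⟩ := hs n E Y g (by omega)
    have h2 : (e' - (Ext.mk₀ f).comp g' (zero_add n)).mapExactFunctor F =
        (0 : Ext.{w} _ _ n) := by
      have h3 : F.mapExtAddHom K Y n (e' - (Ext.mk₀ f).comp g' (zero_add n)) =
          F.mapExtAddHom K Y n e' - F.mapExtAddHom K Y n ((Ext.mk₀ f).comp g' (zero_add n)) :=
        map_sub _ _ _
      refine h3.trans ?_
      rw [sub_eq_zero]
      refine hg.symm.trans ?_
      refine Eq.trans ?_ (Ext.mapExactFunctor_comp F _ _ _).symm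
      exact congrArg (fun t => Ext.comp t (g'.mapExactFunctor F) (zero_add n))
        (Ext.mapExactFunctor_mk₀ F f).symm
    have h3 := ih (fun m X Y e hm => hs m X Y e (by omega)) _ h2
    rw [sub_eq_zero] at h3
    rw [h3]
    refine (Ext.comp_assoc_of_second_deg_zero _ _ _ _).symm.trans ?_
    have h4 : hS.extClass.comp (Ext.mk₀ f) (add_zero 1) = 0 := hS.extClass_comp
    rw [h4, Ext.zero_comp]

/-- The map on `Ext` is bijective. -/
theorem bij_of_effL (hE : EffL F) (X Y : D) (n : ℕ) :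
    Function.Bijective (Ext.mapExactFunctor F : Ext.{w'} X Y n → Ext.{w} (F.obj X) (F.obj Y) n) := by
  refine ⟨(injective_iff_map_eq_zero (F.mapExtAddHom X Y n)).2 fun e he =>
    inj_of_surj F (fun m X Y e _ => surj_of_effL F hE e) e he, fun e => surj_of_effL F hE e⟩

theorem bij_of_effR (hE : EffR F) (X Y : D) (n : ℕ) :
    Function.Bijective (Ext.mapExactFunctor F : Ext.{w'} X Y n → Ext.{w} (F.obj X) (F.obj Y) n) := by
  refine ⟨(injective_iff_map_eq_zero (F.mapExtAddHom X Y n)).2 fun e he =>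
    inj_of_surj F (fun m X Y e _ => surj_of_effR F hE e) e he, fun e => surj_of_effR F hE e⟩

end Eff

section Comp

variable {C : Type u} [Category.{v} C] [Abelian C] [HasExt.{w} C]
  {D : Type u'} [Category.{v'} D] [Abelian D] [HasExt.{w'} D]
  {B : Type u''} [Category.{v''} B] [Abelian B] [HasExt.{w''} B]
  (F : B ⥤ D) [F.Additive] [PreservesFiniteLimits F] [PreservesFiniteColimits F]
  (G : D ⥤ C) [G.Additive] [PreservesFiniteLimits G] [PreservesFiniteColimits G]

/-- Functoriality of the maps on `Ext`. -/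
theorem map_comp {n : ℕ} : ∀ {X Y : B} (e : Ext.{w''} X Y n),
    e.mapExactFunctor (F ⋙ G) =
      ((e.mapExactFunctor F : Ext.{w'} _ _ n).mapExactFunctor G : Ext.{w} _ _ n) := by
  induction n with
  | zero =>
    intro X Y e
    obtain ⟨f, rfl⟩ := (Ext.mk₀_bijective X Y).2 e
    rw [Ext.mapExactFunctor_mk₀, Ext.mapExactFunctor_mk₀, Ext.mapExactFunctor_mk₀]
    rfl
  | succ n ih =>
    intro X Y e
    obtain ⟨K, E, f, p, h0, hS, e', rfl⟩ := exists_extClass_comp e
    rw [Ext.mapExactFunctor_comp, Ext.mapExactFunctor_comp, Ext.mapExactFunctor_comp, ih]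
    have h1 : hS.extClass.mapExactFunctor (F ⋙ G) =
        (((hS.extClass).mapExactFunctor F : Ext.{w'} _ _ 1).mapExactFunctor G :
          Ext.{w} _ _ 1) :=
      (Ext.mapExactFunctor_extClass (F ⋙ G) hS).trans
        ((congrArg (Ext.mapExactFunctor G) (Ext.mapExactFunctor_extClass F hS)).trans
        (Ext.mapExactFunctor_extClass G (hS.map_of_exact F))).symm
    exact congrArg (fun t => Ext.comp t _ (add_comm 1 n)) h1

end Comp

end Pool.Agent.R911.Wt
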