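import Pool.Agent.R911.Wt.Tensor

set_option autoImplicit false

/-!
# Dimension functions
-/

universe v u

open CategoryTheory CategoryTheory.Limits CategoryTheory.Abelian MonoidalCategory
open Pool.Agent.R388.CD

namespace Pool.Agent.R911.Wt

/-- `d` is a dimension function on the abelian category `C`: it is additive on short exact sequences,
and only zero objects have dimension `0`. -/
def IsDimension {C : Type u} [Category.{v} C] [Abelian C] (d : C → ℕ) : Prop :=
  (∀ S : ShortComplex C, S.ShortExact → d S.X₂ = d S.X₁ + d S.X₃) ∧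
    ∀ X : C, d X = 0 → IsZero X

section

variable {C : Type u} [Category.{v} C] [Abelian C] [MonoidalCategory C] (w : Weights C)

/-- `Ext^n(1, Y) = 0` for the unit object `1` and the pure object `Y` of weight `b ≤ 0`, where `Ext`
is computed in the category of the objects with weights in `[b, 0]`. -/
def Weights.UnitExtVanish (b : ℤ) (Y : C) (n : ℕ) : Prop :=
  ∀ (h1 : w.between b 0 (𝟙_ C)) (hY : w.between b 0 Y), ExtVanishIn (w.between b 0) h1 hY n

end

section

variable {C : Type u} [Category.{v} C] [Abelian C] [MonoidalCategory C] [MonoidalPreadditive C]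
  [RigidCategory C] (w : Weights C)

theorem final_reduction (hw : w.Compatible) {d : C → ℕ} (hd : IsDimension d) (n : ℕ) :
    (∀ X Y : C, ExtVanish X Y n) ↔
      ∀ (b : ℤ) (Y : C), b ≤ 0 → Simple Y → w.Pure b Y → w.UnitExtVanish b Y n := by
  rw [tensor_reduction w hw d hd.1 hd.2 n]
  exact ⟨fun h b Y hb hs hY _ _ => h b hb Y hs hY,
    fun h b hb Y hs hY => h b Y hb hs hY _ _⟩

theorem final_one (hw : w.Compatible) {d : C → ℕ} (hd : IsDimension d) :
    cohDim C = 1 ↔ (∃ X Y : C, ¬ ExtVanish X Y 1) ∧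
      ∀ (b : ℤ) (Y : C), b ≤ 0 → Simple Y → w.Pure b Y → w.UnitExtVanish b Y 2 := by
  rw [cohDim_eq_one_iff, final_reduction w hw hd 2]

theorem final_semisimple (hw : w.Compatible) {d : C → ℕ} (hd : IsDimension d)
    (hs : ∀ X Y : C, w.Pure 0 X → w.Pure 0 Y → ExtVanish X Y 1) :
    cohDim C = 1 ↔ (∃ X Y : C, ¬ ExtVanish X Y 1) ∧
      ∀ (b : ℤ) (Y : C), b < 0 → Simple Y → w.Pure b Y → w.UnitExtVanish b Y 2 := by
  rw [cohDim_eq_one_semisimple w hw d hd.1 hd.2 hs]
  exact and_congr_right fun _ => ⟨fun h b Y hb hs hY _ _ => h b hb Y hs hY,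
    fun h b hb Y hs hY => h b Y hb hs hY _ _⟩

end

end Pool.Agent.R911.Wt
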