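import Pool.Agent.R911.Wt.Final

set_option autoImplicit false
set_option linter.unusedSectionVars false

/-!
# Abelian categories with weights and semisimple pure objects
-/

universe v u

open CategoryTheory CategoryTheory.Limits CategoryTheory.Abelian MonoidalCategory
open Pool.Agent.R388.CD

namespace Pool.Agent.R911.Wt

section Pushout

variable {C : Type u} [Category.{v} C] [Abelian C]

/-- The pushout of a short exact sequence. -/
lemma pushout_shortExact {S : ShortComplex C} (hS : S.ShortExact) {Y : C} (g : S.X₁ ⟶ Y) :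
    ∃ (P : C) (i : Y ⟶ P) (p : P ⟶ S.X₃) (h : i ≫ p = 0) (j : S.X₂ ⟶ P),
      (ShortComplex.mk i p h).ShortExact ∧ S.f ≫ j = g ≫ i ∧ j ≫ p = S.g := by
  have hf : Mono S.f := hS.mono_f
  have hg : Epi S.g := hS.epi_g
  have w0 : pushout.inr S.f g ≫ pushout.desc S.g 0 (by rw [S.zero, comp_zero]) = 0 :=
    pushout.inr_desc _ _ _
  refine ⟨pushout S.f g, pushout.inr S.f g, pushout.desc S.g 0 (by rw [S.zero, comp_zero]), w0,
    pushout.inl S.f g, ?_, pushout.condition, pushout.inl_desc _ _ _⟩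
  have hi : Mono (pushout.inr S.f g) := inferInstance
  have hp : Epi (pushout.desc (f := S.f) (g := g) S.g 0 (by rw [S.zero, comp_zero])) := by
    have : Epi (pushout.inl S.f g ≫ pushout.desc (f := S.f) (g := g) S.g 0
        (by rw [S.zero, comp_zero])) := by
      rw [pushout.inl_desc]
      exact hg
    exact epi_of_epi (pushout.inl S.f g) _
  have hc : IsColimit (CokernelCofork.ofπ (pushout.desc (f := S.f) (g := g) S.g 0
      (by rw [S.zero, comp_zero])) w0) := by
    refine CokernelCofork.IsColimit.ofπ _ w0 (fun t ht => hS.exact.desc (pushout.inl S.f g ≫ t) ?_)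
      (fun t ht => ?_) (fun t ht m hm => ?_)
    · rw [← Category.assoc, pushout.condition, Category.assoc, ht, comp_zero]
    · apply pushout.hom_ext
      · rw [← Category.assoc, pushout.inl_desc]
        exact hS.exact.g_desc _ _
      · rw [← Category.assoc, pushout.inr_desc, zero_comp, ht]
    · rw [← cancel_epi S.g]
      have e1 := hS.exact.g_desc (pushout.inl S.f g ≫ t)
        (by rw [← Category.assoc, pushout.condition, Category.assoc, ht, comp_zero])
      refine Eq.trans ?_ e1.symm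
      rw [← hm, ← Category.assoc, pushout.inl_desc]
  exact
    { exact := ShortComplex.exact_of_g_is_cokernel _ hc
      mono_f := hi
      epi_g := hp }

/-- Every class in `Ext¹` is the class of a short exact sequence. -/
lemma exists_shortExact [HasExt.{max u v} C] {X Y : C} (e : Ext.{max u v} X Y 1) :
    ∃ (P : C) (i : Y ⟶ P) (p : P ⟶ X) (h : i ≫ p = 0) (hS : (ShortComplex.mk i p h).ShortExact),
      e = hS.extClass := by
  obtain ⟨K, E, f, q, h0, hS, e', he⟩ := exists_extClass_comp e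
  obtain ⟨g, rfl⟩ := (Ext.mk₀_bijective K Y).2 e'
  obtain ⟨P, i, p, h, j, hT, h1, h2⟩ := pushout_shortExact hS g
  refine ⟨P, i, p, h, hT, ?_⟩
  have h3 := ShortComplex.ShortExact.extClass_naturality hS hT
    { τ₁ := g, τ₂ := j, τ₃ := 𝟙 X
      comm₁₂ := h1.symm
      comm₂₃ := by
        change j ≫ p = q ≫ 𝟙 X
        rw [Category.comp_id]
        exact h2 }
  rw [← he]
  refine h3.trans ?_
  exact Ext.mk₀_id_comp _

end Pushout

section Gap

variable {C : Type u} [Category.{v} C] [Abelian C] (w : Weights C)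

/-- There are no extensions between pure objects of the same weight. -/
def Weights.NoPureExt : Prop := ∀ (a : ℤ) (X Y : C), w.Pure a X → w.Pure a Y → ExtVanish X Y 1

variable {w} (hs : w.NoPureExt)

include hs

lemma ext_one_vanish {a : ℤ} {X Y : C} (hX : w.le a X) (hY : w.ge a Y) : ExtVanish X Y 1 := by
  let _ : HasExt.{max u v} C := HasExt.standard C
  have key : ∀ e : Ext.{max u v} X Y 1, e = 0 := by
    -- first the case of a pure object
    have h1 : ∀ (B : C), w.Pure a B → ∀ e : Ext.{max u v} B Y 1, e = 0 := by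
      intro B hB e
      obtain ⟨A', B', i, p, h, hS, hA', hB'⟩ := w.exists_seq a Y
      have hA2 : w.Pure a A' := ⟨hA', by
        have : Mono i := hS.mono_f
        exact (w.ge a).prop_of_mono i hY⟩
      have h2 : e.comp (Ext.mk₀ p) (add_zero 1) = 0 := w.vanish hB.1 hB' _
      obtain ⟨e', he'⟩ := Ext.covariant_sequence_exact₂ B hS e h2
      rw [← he']
      have h3 : e' = 0 := hs a B A' hB hA2 e'
      rw [h3, Ext.zero_comp]
    intro e
    obtain ⟨A', B', i, p, h, hS, hA', hB'⟩ := w.exists_seq (a - 1) X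
    rw [sub_add_cancel] at hB'
    have hB2 : w.Pure a B' := ⟨by
      have : Epi p := hS.epi_g
      exact (w.le a).prop_of_epi p hX, hB'⟩
    have h2 : (Ext.mk₀ i).comp e (zero_add 1) = 0 :=
      w.vanish (m := a - 1) hA' (by rw [sub_add_cancel]; exact hY) _
    obtain ⟨e', he'⟩ := Ext.contravariant_sequence_exact₂ hS Y e h2
    rw [← he', h1 B' hB2 e', Ext.comp_zero]
  exact key

/-- A class in `Ext^{n+1}(X, Y)`, with `X` of weights at most `a`, factors through an object with
weights at most `a - 1`. -/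
lemma exists_lower [HasExt.{max u v} C] {a : ℤ} {X Y : C} (hX : w.le a X) {n : ℕ}
    (e : Ext.{max u v} X Y (n + 1)) :
    ∃ (K : C) (_ : w.le (a - 1) K) (δ : Ext.{max u v} X K 1) (e' : Ext.{max u v} K Y n),
      e = δ.comp e' (add_comm 1 n) := by
  obtain ⟨E, p, hp, h0⟩ := exists_epi_comp_eq_zero e
  obtain ⟨A, B, i, q, h, hS, hA, hB⟩ := w.exists_seq a E
  have hq : Epi (i ≫ p) := w.epi_of_le i q h hS hB p hX
  have hT : (ShortComplex.mk (kernel.ι (i ≫ p)) (i ≫ p) (kernel.condition _)).ShortExact :=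
    { exact := ShortComplex.exact_of_f_is_kernel _ (kernelIsKernel _)
      mono_f := inferInstanceAs (Mono (kernel.ι (i ≫ p)))
      epi_g := hq }
  have h1 : (Ext.mk₀ (i ≫ p)).comp e (zero_add (n + 1)) = 0 := by
    have h2 : Ext.mk₀ (i ≫ p) = (Ext.mk₀ i).comp (Ext.mk₀ p) (add_zero 0) :=
      (Ext.mk₀_comp_mk₀ _ _).symm
    rw [h2]
    refine (Ext.comp_assoc_of_second_deg_zero _ _ _ _).trans ?_
    rw [h0, Ext.comp_zero]
  obtain ⟨e₁, he₁⟩ := Ext.contravariant_sequence_exact₃ hT Y e h1 (add_comm 1 n)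
  have hK : w.le a (kernel (i ≫ p)) := (w.le a).prop_of_mono (kernel.ι (i ≫ p)) hA
  obtain ⟨K₁, K₂, j, r, h', hU, hK₁, hK₂⟩ := w.exists_seq (a - 1) (kernel (i ≫ p))
  rw [sub_add_cancel] at hK₂
  have h3 : hT.extClass.comp (Ext.mk₀ r) (add_zero 1) = 0 := ext_one_vanish hs hX hK₂ _
  obtain ⟨δ, hδ⟩ := Ext.covariant_sequence_exact₂ X hU hT.extClass h3
  refine ⟨K₁, hK₁, δ, (Ext.mk₀ j).comp e₁ (zero_add n), ?_⟩
  have h4 : (δ.comp (Ext.mk₀ j) (add_zero 1)).comp e₁ (add_comm 1 n) =
      δ.comp ((Ext.mk₀ j).comp e₁ (zero_add n)) (add_comm 1 n) :=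
    Ext.comp_assoc_of_second_deg_zero _ _ _ _
  rw [← h4, ← he₁]
  exact congrArg (fun t => Ext.comp t e₁ (add_comm 1 n)) hδ.symm

/-- **The weights drop at least by one at each step of a Yoneda extension.** -/
theorem gap_vanish (n : ℕ) : ∀ {a b : ℤ} {X Y : C}, w.le a X → w.ge b Y → a < b + n →
    ExtVanish X Y n := by
  let _ : HasExt.{max u v} C := HasExt.standard C
  induction n with
  | zero =>
    intro a b X Y hX hY h
    exact w.vanish hX (w.ge_trans' (by push_cast at h; omega) hY)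
  | succ n ih =>
    intro a b X Y hX hY h
    have key : ∀ e : Ext.{max u v} X Y (n + 1), e = 0 := by
      intro e
      obtain ⟨K, hK, δ, e', rfl⟩ := exists_lower hs hX e
      have h1 : e' = 0 := ih hK hY (by push_cast at h; omega) e'
      rw [h1, Ext.comp_zero]
    exact key

/-- Classes in `Ext²` between pure objects factor through objects with weights strictly in
between. -/
lemma exists_between [HasExt.{max u v} C] {a b : ℤ} {X Y : C} (hX : w.le a X) (hY : w.Pure b Y)
    (e : Ext.{max u v} X Y 2) :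
    ∃ (K : C) (_ : w.between (b + 1) (a - 1) K) (α : Ext.{max u v} X K 1)
      (β : Ext.{max u v} K Y 1), e = α.comp β rfl := by
  obtain ⟨K, hK, δ, e', he⟩ := exists_lower hs hX (n := 1) e
  obtain ⟨A, B, i, q, h, hS, hA, hB⟩ := w.exists_seq b K
  have h1 : (Ext.mk₀ i).comp e' (zero_add 1) = 0 := ext_one_vanish hs hA hY.2 _
  obtain ⟨β, hβ⟩ := Ext.contravariant_sequence_exact₂ hS Y e' h1
  have hq : Epi q := hS.epi_g
  refine ⟨B, ⟨(w.le (a - 1)).prop_of_epi q hK, hB⟩, δ.comp (Ext.mk₀ q) (add_zero 1), β, ?_⟩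
  have h2 : (δ.comp (Ext.mk₀ q) (add_zero 1)).comp β (rfl : 1 + 1 = 2) =
      δ.comp ((Ext.mk₀ q).comp β (zero_add 1)) (rfl : 1 + 1 = 2) :=
    Ext.comp_assoc_of_second_deg_zero _ _ _ _
  rw [h2, he]
  exact congrArg (fun t => Ext.comp δ t (rfl : 1 + 1 = 2)) hβ.symm

end Gap

section Lift

variable {C : Type u} [Category.{v} C] [Abelian C]

/-- Each class in `Ext¹(X, K)` lifts to `Ext¹(X, F)`, for the short exact sequence `S`:
`0 → Y → F → K → 0`. -/
def LiftsAlong (X : C) (S : ShortComplex C) : Prop :=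
  let _ : HasExt.{max u v} C := HasExt.standard C
  ∀ α : Ext.{max u v} X S.X₃ 1, ∃ α' : Ext.{max u v} X S.X₂ 1,
    α'.comp (Ext.mk₀ S.g) (add_zero 1) = α

lemma liftsAlong_of_vanish {X : C} {S : ShortComplex C} (hS : S.ShortExact)
    (h : ExtVanish X S.X₁ 2) : LiftsAlong X S := by
  let _ : HasExt.{max u v} C := HasExt.standard C
  have key : ∀ α : Ext.{max u v} X S.X₃ 1, ∃ α' : Ext.{max u v} X S.X₂ 1,
      α'.comp (Ext.mk₀ S.g) (add_zero 1) = α := by
    intro α
    have h1 : α.comp hS.extClass (rfl : 1 + 1 = 2) = 0 := h _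
    exact Ext.covariant_sequence_exact₃ X hS α rfl h1
  exact key

variable {w : Weights C} (hs : w.NoPureExt)

include hs

lemma vanish_of_liftsAlong {a b : ℤ} {X Y : C} (hX : w.le a X) (hY : w.Pure b Y)
    (h : ∀ S : ShortComplex C, S.ShortExact → S.X₁ = Y → w.between (b + 1) (a - 1) S.X₃ →
      LiftsAlong X S) : ExtVanish X Y 2 := by
  let _ : HasExt.{max u v} C := HasExt.standard C
  have key : ∀ e : Ext.{max u v} X Y 2, e = 0 := by
    intro e
    obtain ⟨K, hK, α, β, rfl⟩ := exists_between hs hX hY e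
    obtain ⟨P, i, p, h0, hS, rfl⟩ := exists_shortExact β
    obtain ⟨α', hα'⟩ : ∃ α' : Ext.{max u v} X P 1, α'.comp (Ext.mk₀ p) (add_zero 1) = α :=
      h (ShortComplex.mk i p h0) hS rfl hK α
    rw [← hα']
    refine (Ext.comp_assoc_of_second_deg_zero _ _ _ _).trans ?_
    have h1 : (Ext.mk₀ p).comp hS.extClass (zero_add 1) = 0 := hS.comp_extClass
    rw [h1, Ext.comp_zero]
  exact key

end Lift

end Pool.Agent.R911.Wt
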