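import Pool.Agent.R911.Wt.Gap

set_option autoImplicit false
set_option linter.unusedSectionVars false

/-!
# Cohomological dimension one and lifting of extensions
-/

universe v u

open CategoryTheory CategoryTheory.Limits CategoryTheory.Abelian MonoidalCategory
open Pool.Agent.R388.CD

namespace Pool.Agent.R911.Wt

variable {C : Type u} [Category.{v} C] [Abelian C] [MonoidalCategory C] [MonoidalPreadditive C]
  [RigidCategory C] (w : Weights C)

/-- There are no extensions in `C` between pure objects of weight `0`. -/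
def Weights.SemisimpleZero {C : Type u} [Category.{v} C] [Abelian C] (w : Weights C) : Prop :=
  ∀ X Y : C, w.Pure 0 X → w.Pure 0 Y → ExtVanish X Y 1

lemma noPureExt (hw : w.Compatible) (hs : w.SemisimpleZero) : w.NoPureExt := by
  intro a X Y hX hY
  apply extVanish_of_dual
  have h := hw.2 a a X Y hX hY
  rw [sub_self] at h
  exact hs _ _ hw.1 h

theorem gap (hw : w.Compatible) (hs : w.SemisimpleZero) (n : ℕ) {a b : ℤ} {X Y : C}
    (hX : w.le a X) (hY : w.ge b Y) (h : a < b + n) : ExtVanish X Y n :=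
  gap_vanish (noPureExt w hw hs) n hX hY h

theorem one_iff_lifts (hw : w.Compatible) (hs : w.SemisimpleZero) {d : C → ℕ}
    (hd : IsDimension d) :
    cohDim C = 1 ↔ (∃ X Y : C, ¬ ExtVanish X Y 1) ∧
      ∀ (b : ℤ) (S : ShortComplex C), b ≤ -2 → S.ShortExact → Simple S.X₁ → w.Pure b S.X₁ →
        w.between (b + 1) (-1) S.X₃ → LiftsAlong (𝟙_ C) S := by
  have hp := noPureExt w hw hs
  rw [cohDim_eq_one_iff]
  refine and_congr_right fun _ => ⟨fun h b S _ hS _ _ _ => liftsAlong_of_vanish hS (h _ _), fun h => ?_⟩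
  rw [final_reduction w hw hd 2]
  intro b Y hb hY1 hY h1 h2
  refine (extVanish_iff w b 0 h1 h2 2).2 ?_
  rcases le_or_gt b (-2) with h0 | h0
  · refine vanish_of_liftsAlong hp hw.1.1 hY fun S hS hS1 hS3 => ?_
    subst hS1
    exact h b S h0 hS hY1 hY hS3
  · exact gap_vanish hp 2 hw.1.1 hY.2 (by push_cast; omega)

end Pool.Agent.R911.Wt
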