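import Pool.Agent.R911.Wt.Defs
import Pool.Agent.R911.Wt.Eff

set_option autoImplicit false
set_option linter.unusedSectionVars false

/-!
# Abelian categories with weights: extensions
-/

universe v u

open CategoryTheory CategoryTheory.Limits CategoryTheory.Abelian
open Pool.Agent.R388.CD

namespace Pool.Agent.R911.Wt

variable {C : Type u} [Category.{v} C] [Abelian C] (w : Weights C)

lemma Weights.le_trans' {m n : ℤ} (h : m ≤ n) {X : C} (hX : w.le m X) : w.le n X := by
  obtain ⟨k, rfl⟩ := Int.le.dest h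
  induction k with
  | zero => simpa using hX
  | succ k ih =>
    have h1 := w.le_mono (m + k) X (ih (by omega))
    have h2 : m + (k : ℤ) + 1 = m + ((k + 1 : ℕ) : ℤ) := by push_cast; ring
    rwa [h2] at h1

lemma Weights.ge_trans' {m n : ℤ} (h : m ≤ n) {X : C} (hX : w.ge n X) : w.ge m X := by
  obtain ⟨k, rfl⟩ := Int.le.dest h
  induction k with
  | zero => simpa using hX
  | succ k ih =>
    have h2 : m + ((k + 1 : ℕ) : ℤ) = m + (k : ℤ) + 1 := by push_cast; ring
    rw [h2] at hX
    exact ih (by omega) (w.ge_mono _ X hX)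

/-- An epimorphism onto an object with weights at most `m` remains one after restriction to the part
with weights at most `m`. -/
lemma Weights.epi_of_le {m : ℤ} {A E B X : C} (i : A ⟶ E) (q : E ⟶ B) (h : i ≫ q = 0)
    (hS : (ShortComplex.mk i q h).ShortExact) (hB : w.ge (m + 1) B) (p : E ⟶ X) [Epi p]
    (hX : w.le m X) : Epi (i ≫ p) := by
  have hq : Epi q := hS.epi_g
  obtain ⟨d, hd⟩ : ∃ d : B ⟶ cokernel (i ≫ p), q ≫ d = p ≫ cokernel.π (i ≫ p) :=
    ⟨hS.exact.desc (p ≫ cokernel.π (i ≫ p)) (by
      change i ≫ p ≫ cokernel.π (i ≫ p) = 0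
      rw [← Category.assoc, cokernel.condition]), hS.exact.g_desc _ _⟩
  have h1 : Epi (q ≫ d) := by rw [hd]; exact epi_comp _ _
  have h2 : Epi d := epi_of_epi q d
  have h3 : IsZero (cokernel (i ≫ p)) := w.isZero m _
    ((w.le m).prop_of_epi (cokernel.π (i ≫ p)) hX) ((w.ge (m + 1)).prop_of_epi d hB)
  exact Preadditive.epi_of_cokernel_zero (h3.eq_of_tgt _ _)

/-- A monomorphism from an object with weights at least `m + 1` remains one after passage to the
quotient with weights at least `m + 1`. -/
lemma Weights.mono_of_ge {m : ℤ} {A E B Y : C} (i : A ⟶ E) (q : E ⟶ B) (h : i ≫ q = 0)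
    (hS : (ShortComplex.mk i q h).ShortExact) (hA : w.le m A) (j : Y ⟶ E) [Mono j]
    (hY : w.ge (m + 1) Y) : Mono (j ≫ q) := by
  have hi : Mono i := hS.mono_f
  obtain ⟨d, hd⟩ : ∃ d : kernel (j ≫ q) ⟶ A, d ≫ i = kernel.ι (j ≫ q) ≫ j :=
    ⟨hS.exact.lift (kernel.ι (j ≫ q) ≫ j) (by
      change (kernel.ι (j ≫ q) ≫ j) ≫ q = 0
      rw [Category.assoc, kernel.condition]), hS.exact.lift_f _ _⟩
  have h1 : Mono (d ≫ i) := by rw [hd]; exact mono_comp _ _
  have h2 : Mono d := mono_of_mono d i
  have h3 : IsZero (kernel (j ≫ q)) := w.isZero m _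
    ((w.le m).prop_of_mono d hA) ((w.ge (m + 1)).prop_of_mono (kernel.ι (j ≫ q)) hY)
  exact Preadditive.mono_of_kernel_zero (h3.eq_of_src _ _)

/-- **Increasing weights.** -/
theorem Weights.vanish {m : ℤ} {n : ℕ} : ∀ {X Y : C}, w.le m X → w.ge (m + 1) Y →
    ExtVanish X Y n := by
  let _ : HasExt.{max u v} C := HasExt.standard C
  have key : ∀ (n : ℕ) (X Y : C), w.le m X → w.ge (m + 1) Y →
      ∀ e : Ext.{max u v} X Y n, e = 0 := by
    intro n
    induction n with
    | zero =>
      intro X Y hX hY e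
      obtain ⟨f, rfl⟩ := (Ext.mk₀_bijective X Y).2 e
      have h1 : IsZero (Limits.image f) := w.isZero m _
        ((w.le m).prop_of_epi (Limits.factorThruImage f) hX)
        ((w.ge (m + 1)).prop_of_mono (Limits.image.ι f) hY)
      have h2 : f = 0 := by
        rw [← Limits.image.fac f, h1.eq_of_tgt (Limits.factorThruImage f) 0, zero_comp]
      rw [h2, Ext.mk₀_zero]
    | succ n ih =>
      intro X Y hX hY e
      obtain ⟨E, p, hp, h0⟩ := exists_epi_comp_eq_zero e
      obtain ⟨A, B, i, q, h, hS, hA, hB⟩ := w.exists_seq m E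
      have hq : Epi (i ≫ p) := w.epi_of_le i q h hS hB p hX
      have hT : (ShortComplex.mk (kernel.ι (i ≫ p)) (i ≫ p) (kernel.condition _)).ShortExact :=
        { exact := ShortComplex.exact_of_f_is_kernel _ (kernelIsKernel _)
          mono_f := inferInstanceAs (Mono (kernel.ι (i ≫ p)))
          epi_g := hq }
      have h1 : (Ext.mk₀ (i ≫ p)).comp e (zero_add (n + 1)) = 0 := by
        have h2 : Ext.mk₀ (i ≫ p) = (Ext.mk₀ i).comp (Ext.mk₀ p) (add_zero 0) :=
          (Ext.mk₀_comp_mk₀ _ _).symm
        rw [h2]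
        refine (Ext.comp_assoc_of_second_deg_zero _ _ _ _).trans ?_
        rw [h0, Ext.comp_zero]
      obtain ⟨e₁, he₁⟩ := Ext.contravariant_sequence_exact₃ hT Y e h1 (add_comm 1 n)
      rw [← he₁, ih _ Y ((w.le m).prop_of_mono (kernel.ι (i ≫ p)) hA) hY e₁, Ext.comp_zero]
  intro X Y hX hY
  exact key n X Y hX hY

section Interval

variable (b a : ℤ)

lemma between_le : w.between b a ≤ w.le a := fun _ h => h.1

/-- The inclusion of the objects with weights in `[b, a]` into those with weights at most `a`. -/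
abbrev inc : (w.between b a).FullSubcategory ⥤ (w.le a).FullSubcategory :=
  ObjectProperty.ιOfLE (between_le w b a)

instance : (inc w b a).Additive where
  map_add := rfl

instance incL : PreservesFiniteLimits (inc w b a) := by
  have h1 : PreservesFiniteLimits (inc w b a ⋙ (w.le a).ι) := exactL (w.between b a)
  have := exactL (w.le a)
  exact preservesFiniteLimits_of_reflects_of_preserves _ (w.le a).ι

instance incR : PreservesFiniteColimits (inc w b a) := by
  have h1 : PreservesFiniteColimits (inc w b a ⋙ (w.le a).ι) := exactR (w.between b a)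
  have := exactR (w.le a)
  exact preservesFiniteColimits_of_reflects_of_preserves _ (w.le a).ι

lemma effL_le : EffL (w.le a).ι := by
  intro X E p hp
  obtain ⟨A, B, i, q, h, hS, hA, hB⟩ := w.exists_seq a E
  exact ⟨⟨A, hA⟩, i, w.epi_of_le i q h hS hB p X.property⟩

lemma effR_inc : EffR (inc w b a) := by
  intro Y E i hi
  have h0 := exactL (w.le a)
  have hi' : Mono ((w.le a).ι.map i) := inferInstance
  obtain ⟨A, B, j, q, h, hS, hA, hB⟩ := w.exists_seq (b - 1) E.obj
  rw [sub_add_cancel] at hB
  have hq : Epi q := hS.epi_g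
  have hB' : w.le a B := (w.le a).prop_of_epi q E.property
  refine ⟨⟨B, hB', hB⟩, (w.le a).homMk q, ?_⟩
  apply (w.le a).ι.mono_of_mono_map
  exact w.mono_of_ge j q h hS hA ((w.le a).ι.map i) (by rw [sub_add_cancel]; exact Y.property.2)

/-- **Intervals of weights.** -/
theorem extBij (X Y : (w.between b a).FullSubcategory) (n : ℕ) : ExtBij (w.between b a) X Y n := by
  let _ : HasExt.{max u v} C := HasExt.standard C
  let _ : HasExt.{max u v} (w.between b a).FullSubcategory := HasExt.standard _
  let _ : HasExt.{max u v} (w.le a).FullSubcategory := HasExt.standard _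
  have i1 := exactL (w.between b a)
  have i2 := exactR (w.between b a)
  have i3 := exactL (w.le a)
  have i4 := exactR (w.le a)
  have h1 := bij_of_effR (inc w b a) (effR_inc w b a) X Y n
  have h2 := bij_of_effL (w.le a).ι (effL_le w a) ((inc w b a).obj X) ((inc w b a).obj Y) n
  have h3 := h2.comp h1
  have h4 : (Ext.mapExactFunctor (w.between b a).ι : Ext.{max u v} X Y n →
      Ext.{max u v} X.obj Y.obj n) =
      (Ext.mapExactFunctor (w.le a).ι) ∘ (Ext.mapExactFunctor (inc w b a)) := by
    funext e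
    exact map_comp (inc w b a) (w.le a).ι e
  have h5 : Function.Bijective (Ext.mapExactFunctor (w.between b a).ι : Ext.{max u v} X Y n →
      Ext.{max u v} X.obj Y.obj n) := by
    rw [h4]
    exact h3
  exact h5

end Interval

/-- Vanishing can be tested in the category of objects with weights in an interval. -/
theorem extVanish_iff (b a : ℤ) {X Y : C} (hX : w.between b a X) (hY : w.between b a Y) (n : ℕ) :
    ExtVanishIn (w.between b a) hX hY n ↔ ExtVanish X Y n := by
  have i1 := exactL (w.between b a)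
  have i2 := exactR (w.between b a)
  let _ : HasExt.{max u v} C := HasExt.standard C
  let _ : HasExt.{max u v} (w.between b a).FullSubcategory := HasExt.standard _
  have h : Function.Bijective (Ext.mapExactFunctor (w.between b a).ι :
      Ext.{max u v} (⟨X, hX⟩ : (w.between b a).FullSubcategory) ⟨Y, hY⟩ n →
      Ext.{max u v} X Y n) := extBij w b a ⟨X, hX⟩ ⟨Y, hY⟩ n
  have h0 : Ext.mapExactFunctor (w.between b a).ι (0 : Ext.{max u v}
      (⟨X, hX⟩ : (w.between b a).FullSubcategory) ⟨Y, hY⟩ n) = (0 : Ext.{max u v} X Y n) :=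
    Ext.mapExactFunctor_zero _ _ _ _
  have key : (∀ e : Ext.{max u v} (⟨X, hX⟩ : (w.between b a).FullSubcategory) ⟨Y, hY⟩ n,
      e = 0) ↔ ∀ e : Ext.{max u v} X Y n, e = 0 := by
    constructor
    · intro h1 e
      obtain ⟨e', rfl⟩ := h.2 e
      rw [h1 e']
      exact h0
    · intro h1 e
      exact h.1 ((h1 _).trans h0.symm)
  exact key

/-- Simple objects are pure. -/
theorem Weights.exists_pure {X : C} [Simple X] : ∃ m : ℤ, w.Pure m X := by
  obtain ⟨a, b, ha, hb⟩ := w.bounded X
  have hne : ¬ IsZero X := Simple.not_isZero X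
  have hlt : ∀ m, w.le m X → b ≤ m := by
    intro m hm
    by_contra hc
    exact hne (w.isZero m X hm (w.ge_trans' (by omega) hb))
  obtain ⟨m, hm, hmin⟩ : ∃ m, w.le m X ∧ ¬ w.le (m - 1) X := by
    by_contra hcon
    push Not at hcon
    have : ∀ k : ℕ, w.le (a - k) X := by
      intro k
      induction k with
      | zero => simpa using ha
      | succ k ih =>
        have := hcon _ ih
        have e : a - (k : ℤ) - 1 = a - ((k + 1 : ℕ) : ℤ) := by push_cast; ring
        rwa [e] at this
    have h1 := hlt _ (this (a - b + 1).toNat)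
    have h2 := hlt a ha
    omega
  refine ⟨m, hm, ?_⟩
  obtain ⟨A, B, i, q, h, hS, hA, hB⟩ := w.exists_seq (m - 1) X
  rw [sub_add_cancel] at hB
  have hi : Mono i := hS.mono_f
  by_cases h0 : i = 0
  · have h1 : Mono q := by
      have : IsZero A := by
        rw [IsZero.iff_id_eq_zero, ← cancel_mono i, h0, comp_zero, comp_zero]
      have h2 : Mono (ShortComplex.mk i q h).g := hS.exact.mono_g h0
      exact h2
    exact (w.ge m).prop_of_mono q hB
  · exfalso
    have h1 : IsIso i := isIso_of_mono_of_nonzero h0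
    exact hmin ((w.le (m - 1)).prop_of_epi i hA)

/-- **Reduction to irreducible objects.** -/
theorem Weights.reduction (d : C → ℕ)
    (hd : ∀ S : ShortComplex C, S.ShortExact → d S.X₂ = d S.X₁ + d S.X₃)
    (hz : ∀ X : C, d X = 0 → IsZero X) (n : ℕ) :
    (∀ X Y : C, ExtVanish X Y n) ↔
      ∀ (b a : ℤ), b ≤ a → ∀ (X Y : C) (hX : w.between b a X) (hY : w.between b a Y),
        Simple X → Simple Y → w.Pure a X → w.Pure b Y →
        ExtVanishIn (w.between b a) hX hY n := by
  constructor
  · intro h b a _ X Y hX hY _ _ _ _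
    exact (extVanish_iff w b a hX hY n).2 (h X Y)
  · intro h
    refine devissage d hd hz fun X Y hX hY => ?_
    obtain ⟨a, ha⟩ := w.exists_pure (X := X)
    obtain ⟨b, hb⟩ := w.exists_pure (X := Y)
    rcases lt_or_ge a b with hab | hab
    · exact w.vanish ha.1 (w.ge_trans' (by omega) hb.2)
    · have h1 : w.between b a X := ⟨ha.1, w.ge_trans' hab ha.2⟩
      have h2 : w.between b a Y := ⟨w.le_trans' hab hb.1, hb.2⟩
      exact (extVanish_iff w b a h1 h2 n).1 (h b a hab X Y h1 h2 hX hY ha hb)

end Pool.Agent.R911.Wt
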