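import Pool.Agent.R911.Wt.Main

set_option autoImplicit false
set_option linter.unusedSectionVars false

/-!
# Abelian tensor categories with weights: extensions
-/

universe v u

open CategoryTheory CategoryTheory.Limits CategoryTheory.Abelian MonoidalCategory
open Pool.Agent.R388.CD

namespace Pool.Agent.R911.Wt

section Adj

variable {C : Type u} [Category.{v} C] [Abelian C]

lemma extVanish_of_iso {X X' Y : C} (i : X ≅ X') {n : ℕ} (h : ExtVanish X Y n) :
    ExtVanish X' Y n := by
  let _ : HasExt.{max u v} C := HasExt.standard C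
  have key : ∀ e : Ext.{max u v} X' Y n, e = 0 := by
    intro e
    have h1 : (Ext.mk₀ i.hom).comp e (zero_add n) = 0 := h _
    have h2 : (Ext.mk₀ i.inv).comp ((Ext.mk₀ i.hom).comp e (zero_add n)) (zero_add n) = 0 := by
      rw [h1, Ext.comp_zero]
    rw [Ext.mk₀_comp_mk₀_assoc, i.inv_hom_id, Ext.mk₀_id_comp] at h2
    exact h2
  exact key

variable {L R : C ⥤ C} (adj : L ⊣ R) [L.Additive] [PreservesFiniteLimits L]
  [PreservesFiniteColimits L] [R.Additive] [PreservesFiniteLimits R] [PreservesFiniteColimits R]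

include adj in
/-- Extensions and adjoint exact functors. -/
theorem extVanish_of_adj {X Y : C} {n : ℕ} (h : ExtVanish X (R.obj Y) n) :
    ExtVanish (L.obj X) Y n := by
  let _ : HasExt.{max u v} C := HasExt.standard C
  have key : ∀ e : Ext.{max u v} (L.obj X) Y n, e = 0 := by
    intro e
    have h1 : (Ext.mk₀ (adj.unit.app X)).comp (e.mapExactFunctor R :
      Ext.{max u v} (R.obj (L.obj X)) (R.obj Y) n) (zero_add n) = 0 := h _
    have h2 : ((Ext.mk₀ (adj.unit.app X)).comp (e.mapExactFunctor R :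
      Ext.{max u v} (R.obj (L.obj X)) (R.obj Y) n) (zero_add n)).mapExactFunctor L =
      (0 : Ext.{max u v} (L.obj X) (L.obj (R.obj Y)) n) := by
      rw [h1]
      exact Ext.mapExactFunctor_zero _ _ _ _
    rw [Ext.mapExactFunctor_comp, Ext.mapExactFunctor_mk₀] at h2
    have h3 := nat_counit R L adj.counit e
    have h4 : ((Ext.mk₀ (L.map (adj.unit.app X))).comp ((e.mapExactFunctor R :
      Ext.{max u v} (R.obj (L.obj X)) (R.obj Y) n).mapExactFunctor L) (zero_add n)).comp
      (Ext.mk₀ (adj.counit.app Y)) (add_zero n) = (0 : Ext.{max u v} (L.obj X) Y n) := by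
      rw [h2, Ext.zero_comp]
    rw [Ext.comp_assoc_of_third_deg_zero, h3] at h4
    have h5 : (Ext.mk₀ (L.map (adj.unit.app X))).comp ((Ext.mk₀ (adj.counit.app (L.obj X))).comp e
        (zero_add n)) (zero_add n) = e := by
      refine (Ext.comp_assoc_of_second_deg_zero _ _ _ _).symm.trans ?_
      have h6 : (Ext.mk₀ (L.map (adj.unit.app X))).comp (Ext.mk₀ (adj.counit.app (L.obj X)))
          (add_zero 0) = Ext.mk₀ (𝟙 (L.obj X)) :=
        (Ext.mk₀_comp_mk₀ _ _).trans (congrArg Ext.mk₀ (adj.left_triangle_components X))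
      rw [h6]
      exact Ext.mk₀_id_comp e
    exact h5.symm.trans h4
  exact key

end Adj

section Tensor

variable {C : Type u} [Category.{v} C] [Abelian C] [MonoidalCategory C] [MonoidalPreadditive C]
  [RigidCategory C]

/-- Extensions and duality. -/
theorem extVanish_of_dual {X Y : C} {n : ℕ} (h : ExtVanish (𝟙_ C) (Y ⊗ Xᘁ) n) :
    ExtVanish X Y n := by
  have a1 : (tensorRight X).IsLeftAdjoint := (tensorRightAdjunction X Xᘁ).isLeftAdjoint
  have a2 : (tensorRight X).IsRightAdjoint := (tensorRightAdjunction (ᘁX) X).isRightAdjoint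
  have a3 : (tensorRight Xᘁ).IsLeftAdjoint := (tensorRightAdjunction Xᘁ (Xᘁ)ᘁ).isLeftAdjoint
  have a4 : (tensorRight Xᘁ).IsRightAdjoint := (tensorRightAdjunction X Xᘁ).isRightAdjoint
  have h1 : ExtVanish ((tensorRight X).obj (𝟙_ C)) Y n :=
    extVanish_of_adj (tensorRightAdjunction X Xᘁ) h
  exact extVanish_of_iso (λ_ X) h1

end Tensor

section Dev

variable {C : Type u} [Category.{v} C] [Abelian C]

/-- Devissage in the second variable. -/
theorem devissage_right (P : ObjectProperty C) [IsRepClass P] (d : C → ℕ)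
    (hd : ∀ S : ShortComplex C, S.ShortExact → d S.X₂ = d S.X₁ + d S.X₃)
    (hz : ∀ X : C, d X = 0 → IsZero X) {X : C} {n : ℕ}
    (h : ∀ Y : C, P Y → Simple Y → ExtVanish X Y n) : ∀ Y : C, P Y → ExtVanish X Y n := by
  let _ : HasExt.{max u v} C := HasExt.standard C
  have key : ∀ (m : ℕ) (Y : C), P Y → d Y ≤ m → ∀ e : Ext.{max u v} X Y n, e = 0 := by
    intro m
    induction m with
    | zero => exact fun Y _ hY e => ext_of_isZero_right (hz Y (by omega)) e
    | succ m ih =>
      intro Y hP hY e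
      by_cases h0 : IsZero Y
      · exact ext_of_isZero_right h0 e
      by_cases hs : Simple Y
      · exact h Y hP hs e
      obtain ⟨S, hS, rfl, h1, h3⟩ := exists_sub h0 hs
      have hd' := hd S hS
      have hd1 : d S.X₁ ≠ 0 := fun hc => h1 (hz _ hc)
      have hd3 : d S.X₃ ≠ 0 := fun hc => h3 (hz _ hc)
      obtain ⟨e', rfl⟩ := Ext.covariant_sequence_exact₂ X hS e
        (ih S.X₃ (P.prop_X₃_of_shortExact hS hP) (by omega) _)
      rw [ih S.X₁ (P.prop_X₁_of_shortExact hS hP) (by omega) e', Ext.zero_comp]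
  exact fun Y hY => key _ Y hY le_rfl

end Dev

section Main

variable {C : Type u} [Category.{v} C] [Abelian C] [MonoidalCategory C] [MonoidalPreadditive C]
  [RigidCategory C] (w : Weights C)

/-- The weights are compatible with tensor products and duals. -/
def Weights.Compatible : Prop :=
  w.Pure 0 (𝟙_ C) ∧ ∀ (a b : ℤ) (X Y : C), w.Pure a X → w.Pure b Y → w.Pure (b - a) (Y ⊗ Xᘁ)

lemma between_unit (hw : w.Compatible) {b : ℤ} (hb : b ≤ 0) : w.between b 0 (𝟙_ C) :=
  ⟨hw.1.1, w.ge_trans' hb hw.1.2⟩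

lemma between_pure {b : ℤ} (hb : b ≤ 0) {Y : C} (hY : w.Pure b Y) : w.between b 0 Y :=
  ⟨w.le_trans' hb hY.1, hY.2⟩

/-- **Reduction to extensions of the unit by irreducible objects of nonpositive weight.** -/
theorem tensor_reduction (hw : w.Compatible) (d : C → ℕ)
    (hd : ∀ S : ShortComplex C, S.ShortExact → d S.X₂ = d S.X₁ + d S.X₃)
    (hz : ∀ X : C, d X = 0 → IsZero X) (n : ℕ) :
    (∀ X Y : C, ExtVanish X Y n) ↔
      ∀ (b : ℤ) (hb : b ≤ 0) (Y : C) (_ : Simple Y) (hY : w.Pure b Y),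
        ExtVanishIn (w.between b 0) (between_unit w hw hb) (between_pure w hb hY) n := by
  constructor
  · intro h b hb Y _ hY
    exact (extVanish_iff w b 0 _ _ n).2 (h _ Y)
  · intro h
    refine devissage d hd hz fun X Y hX hY => ?_
    obtain ⟨a, ha⟩ := w.exists_pure (X := X)
    obtain ⟨b, hb⟩ := w.exists_pure (X := Y)
    apply extVanish_of_dual
    have hc := hw.2 a b X Y ha hb
    rcases lt_or_ge 0 (b - a) with h0 | h0
    · exact w.vanish (m := 0) hw.1.1 (w.ge_trans' (by omega) hc.2)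
    · refine devissage_right (w.between (b - a) (b - a)) d hd hz (fun Z hZ hs => ?_) _ hc
      exact (extVanish_iff w (b - a) 0 _ _ n).1 (h (b - a) h0 Z hs hZ)

/-- If the pure objects of weight `0` have no extensions, only negative weights matter. -/
theorem tensor_reduction_semisimple (hw : w.Compatible) (d : C → ℕ)
    (hd : ∀ S : ShortComplex C, S.ShortExact → d S.X₂ = d S.X₁ + d S.X₃)
    (hz : ∀ X : C, d X = 0 → IsZero X)
    (hs : ∀ X Y : C, w.Pure 0 X → w.Pure 0 Y → ExtVanish X Y 1) (n : ℕ) :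
    (∀ X Y : C, ExtVanish X Y (n + 1)) ↔
      ∀ (b : ℤ) (hb : b < 0) (Y : C) (_ : Simple Y) (hY : w.Pure b Y),
        ExtVanishIn (w.between b 0) (between_unit w hw hb.le) (between_pure w hb.le hY)
          (n + 1) := by
  rw [tensor_reduction w hw d hd hz (n + 1)]
  constructor
  · exact fun h b hb Y hY1 hY => h b hb.le Y hY1 hY
  · intro h b hb Y hY1 hY
    rcases lt_or_eq_of_le hb with h0 | rfl
    · exact h b h0 Y hY1 hY
    · have h1 : ∀ X Y : (w.between 0 0).FullSubcategory, ExtVanish X Y 1 := fun X Y =>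
        (extVanish_iff w 0 0 X.property Y.property 1).2 (hs X.obj Y.obj X.property Y.property)
      have h2 := extVanish_of_le (C := (w.between 0 0).FullSubcategory) (Nat.succ_le_succ
        (Nat.zero_le n)) h1
      exact h2 _ _

/-- **Cohomological dimension one.** -/
theorem cohDim_eq_one (hw : w.Compatible) (d : C → ℕ)
    (hd : ∀ S : ShortComplex C, S.ShortExact → d S.X₂ = d S.X₁ + d S.X₃)
    (hz : ∀ X : C, d X = 0 → IsZero X) :
    cohDim C = 1 ↔ (∃ X Y : C, ¬ ExtVanish X Y 1) ∧
      ∀ (b : ℤ) (hb : b ≤ 0) (Y : C) (_ : Simple Y) (hY : w.Pure b Y),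
        ExtVanishIn (w.between b 0) (between_unit w hw hb) (between_pure w hb hY) 2 := by
  rw [cohDim_eq_one_iff, tensor_reduction w hw d hd hz 2]

theorem cohDim_eq_one_semisimple (hw : w.Compatible) (d : C → ℕ)
    (hd : ∀ S : ShortComplex C, S.ShortExact → d S.X₂ = d S.X₁ + d S.X₃)
    (hz : ∀ X : C, d X = 0 → IsZero X)
    (hs : ∀ X Y : C, w.Pure 0 X → w.Pure 0 Y → ExtVanish X Y 1) :
    cohDim C = 1 ↔ (∃ X Y : C, ¬ ExtVanish X Y 1) ∧
      ∀ (b : ℤ) (hb : b < 0) (Y : C) (_ : Simple Y) (hY : w.Pure b Y),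
        ExtVanishIn (w.between b 0) (between_unit w hw hb.le) (between_pure w hb.le hY) 2 := by
  rw [cohDim_eq_one_iff, tensor_reduction_semisimple w hw d hd hz hs 1]

end Main

end Pool.Agent.R911.Wt
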